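import Pool.Agent.Helper9.MT.Sheet

/-!
Project T3 (MP_2a8cc2_nt), row NUMH: the numerical heart.
-/

set_option autoImplicit false

namespace Pool.Agent.Helper73.MT

open Finset Polynomial Pool.Agent.Helper70.SUB Pool.Agent.Helper9.MT

theorem homX_eq (d : ℕ) (hd : 1 ≤ d) (f : ℤ[X]) (p q : ℤ) :
    homX d f p q = hom (d - 1) (derivative f) p q := by
  obtain ⟨e, rfl⟩ : ∃ e, d = e + 1 := ⟨d - 1, by omega⟩
  unfold homX hom
  rw [Finset.sum_range_succ', Nat.add_sub_cancel]
  have h0 : f.coeff 0 * ((0 : ℕ) : ℤ) * p ^ (0 - 1) * q ^ (e + 1 - 0) = 0 := by simp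
  rw [h0, add_zero]
  refine sum_congr rfl fun j _ => ?_
  rw [coeff_derivative, Nat.add_sub_cancel, Nat.add_sub_add_right]
  push_cast
  ring

theorem euler (d : ℕ) (f : ℤ[X]) (p q : ℤ) :
    p * homX d f p q + q * homY d f p q = d * hom d f p q := by
  unfold homX homY hom
  rw [mul_sum, mul_sum, mul_sum, ← sum_add_distrib]
  refine sum_congr rfl fun i hi => ?_
  rw [mem_range] at hi
  obtain ⟨j, rfl⟩ : ∃ j, d = i + j := ⟨d - i, by omega⟩
  rw [Nat.add_sub_cancel_left]
  cases i with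
  | zero =>
    cases j with
    | zero => simp
    | succ j =>
      rw [Nat.add_sub_cancel]
      push_cast
      ring
  | succ i =>
    cases j with
    | zero =>
      rw [Nat.add_sub_cancel]
      push_cast
      ring
    | succ j =>
      rw [Nat.add_sub_cancel, Nat.add_sub_cancel]
      push_cast
      ring

theorem hom_eval (m : ℕ) (f : ℤ[X]) (p q : ℤ) (hm : f.natDegree ≤ m) (hq : q ≠ 0) :
    (hom m f p q : ℚ) = (q : ℚ) ^ m * (f.map (Int.castRingHom ℚ)).eval ((p : ℚ) / q) := by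
  have hq' : (q : ℚ) ≠ 0 := by exact_mod_cast hq
  rw [Polynomial.eval_eq_sum_range' (n := m + 1)
    (lt_of_le_of_lt (natDegree_map_le) (by omega)), mul_sum]
  unfold hom
  push_cast
  refine sum_congr rfl fun i hi => ?_
  rw [mem_range] at hi
  obtain ⟨j, rfl⟩ : ∃ j, m = i + j := ⟨m - i, by omega⟩
  rw [Nat.add_sub_cancel_left, coeff_map, div_pow, pow_add]
  have : (q : ℚ) ^ i ≠ 0 := pow_ne_zero _ hq'
  simp only [eq_intCast]
  field_simp

theorem hom_ident (d : ℕ) (hd : 2 ≤ d) (f U V : ℤ[X]) (R p q : ℤ) (hf : f.natDegree = d)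
    (hU : U.natDegree ≤ d - 2) (hV : V.natDegree ≤ d - 1)
    (h : f * U + derivative f * V = C R) (hq : q ≠ 0) :
    hom d f p q * hom (d - 2) U p q + homX d f p q * hom (d - 1) V p q
      = R * q ^ (2 * d - 2) := by
  rw [homX_eq d (by omega)]
  have hf' : (derivative f).natDegree ≤ d - 1 := by
    rw [← hf]
    exact natDegree_derivative_le f
  have e1 := hom_eval d f p q hf.le hq
  have e2 := hom_eval (d - 2) U p q hU hq
  have e3 := hom_eval (d - 1) (derivative f) p q hf' hq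
  have e4 := hom_eval (d - 1) V p q hV hq
  have e5 := congrArg (fun g : ℤ[X] => (g.map (Int.castRingHom ℚ)).eval ((p : ℚ) / q)) h
  simp only [Polynomial.map_add, Polynomial.map_mul, eval_add, eval_mul, Polynomial.map_C,
    eval_C] at e5
  rw [eq_intCast (Int.castRingHom ℚ) R] at e5
  have e6 : ((hom d f p q * hom (d - 2) U p q + hom (d - 1) (derivative f) p q *
      hom (d - 1) V p q : ℤ) : ℚ) = ((R * q ^ (2 * d - 2) : ℤ) : ℚ) := by
    push_cast
    rw [e1, e2, e3, e4, ← e5]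
    have h1 : (q : ℚ) ^ (2 * d - 2) = (q : ℚ) ^ d * (q : ℚ) ^ (d - 2) := by
      rw [← pow_add]
      congr 1
      omega
    have h2 : (q : ℚ) ^ (2 * d - 2) = (q : ℚ) ^ (d - 1) * (q : ℚ) ^ (d - 1) := by
      rw [← pow_add]
      congr 1
      omega
    rw [add_mul]
    conv_rhs =>
      congr
      · rw [h1]
      · rw [h2]
    ring
  exact_mod_cast e6

theorem hom_split (e : ℕ) (f : ℤ[X]) (p q : ℤ) :
    hom (e + 1) f p q = f.coeff (e + 1) * p ^ (e + 1) +
      q * ∑ i ∈ range (e + 1), f.coeff i * p ^ i * q ^ (e - i) := by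
  unfold hom
  rw [Finset.sum_range_succ, add_comm, Nat.sub_self, pow_zero, mul_one, mul_sum]
  congr 1
  refine sum_congr rfl fun i hi => ?_
  rw [mem_range] at hi
  obtain ⟨j, rfl⟩ : ∃ j, e = i + j := ⟨e - i, by omega⟩
  rw [Nat.add_sub_cancel_left, add_assoc, Nat.add_sub_cancel_left, pow_succ]
  ring

theorem sum_abs (e : ℕ) (f : ℤ[X]) (p q : ℤ) (E H : ℝ) (hE : ∀ i, |(f.coeff i : ℝ)| ≤ E)
    (hp : |(p : ℝ)| ≤ H) (hq : |(q : ℝ)| ≤ H) :
    |((∑ i ∈ range (e + 1), f.coeff i * p ^ i * q ^ (e - i) : ℤ) : ℝ)| ≤ (e + 1) * E * H ^ e := by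
  have hH : 0 ≤ H := le_trans (abs_nonneg _) hp
  have hE0 : 0 ≤ E := le_trans (abs_nonneg _) (hE 0)
  push_cast
  refine (Finset.abs_sum_le_sum_abs _ _).trans ?_
  have h1 : ∀ i ∈ range (e + 1), |(f.coeff i : ℝ) * (p : ℝ) ^ i * (q : ℝ) ^ (e - i)| ≤
      E * H ^ e := by
    intro i hi
    rw [mem_range] at hi
    have h2 : H ^ e = H ^ i * H ^ (e - i) := by
      rw [← pow_add]
      congr 1
      omega
    rw [abs_mul, abs_mul, abs_pow, abs_pow, h2, ← mul_assoc]
    exact mul_le_mul (mul_le_mul (hE i) (pow_le_pow_left₀ (abs_nonneg _) hp i)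
      (by positivity) hE0) (pow_le_pow_left₀ (abs_nonneg _) hq _) (by positivity)
      (by positivity)
  refine (Finset.sum_le_sum h1).trans (le_of_eq ?_)
  rw [Finset.sum_const, card_range, nsmul_eq_mul]
  push_cast
  ring

theorem hom_abs (e : ℕ) (f : ℤ[X]) (p q : ℤ) (E H : ℝ) (hE : ∀ i, |(f.coeff i : ℝ)| ≤ E)
    (hp : |(p : ℝ)| ≤ H) (hq : |(q : ℝ)| ≤ H) :
    |(hom e f p q : ℝ)| ≤ (e + 1) * E * H ^ e :=
  sum_abs e f p q E H hE hp hq

theorem dvd_pow_of (N q b : ℤ) (h : ∃ x y, b = x * N + y * q) (m : ℕ) :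
    ∀ X : ℤ, N ∣ X * q ^ m → N ∣ X * b ^ m := by
  obtain ⟨x, y, hb⟩ := h
  induction m with
  | zero => intro X hX; simpa using hX
  | succ m ih =>
    intro X hX
    have h1 : N ∣ X * q * b ^ m := by
      apply ih
      rw [pow_succ'] at hX
      rwa [mul_assoc]
    have h2 : X * b ^ (m + 1) = x * X * b ^ m * N + y * (X * q * b ^ m) := by
      rw [pow_succ]
      nth_rw 2 [hb]
      ring
    rw [h2]
    exact dvd_add (Dvd.intro_left _ rfl) (Dvd.dvd.mul_left h1 _)

/-- the real place -/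
theorem real_place (d : ℕ) (hd : 5 ≤ d) (f U V : ℤ[X]) (R k p q N p' q' n' : ℤ) (E H : ℝ)
    (hf : f.natDegree = d) (hid : hom d f p q * hom (d - 2) U p q +
      homX d f p q * hom (d - 1) V p q = R * q ^ (2 * d - 2))
    (hR : R ≠ 0) (hE : 1 ≤ E)
    (hfE : ∀ i, |(f.coeff i : ℝ)| ≤ E) (hUE : ∀ i, |(U.coeff i : ℝ)| ≤ E)
    (hVE : ∀ i, |(V.coeff i : ℝ)| ≤ E) (hH : H = max |(p : ℝ)| |(q : ℝ)|) (hH1 : 1 ≤ H)
    (hG : hom d f p q = k * N ^ 2)
    (hXw : homX d f p q * (q * p' - p * q') = 2 * k * q * N * n' - d * hom d f p q * q')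
    (h1 : |(p' : ℝ)| ≤ E * |(p : ℝ)|) (h2 : |(q' : ℝ)| ≤ E * |(q : ℝ)|)
    (h3 : |(n' : ℝ)| ≤ E * |(N : ℝ)|) :
    |((q * p' - p * q' : ℤ) : ℝ)| * H ^ (d - 2) ≤
      ((2 * d) ^ (2 * d - 2) * (d + 2) ^ 2) * E ^ (2 * d) * |(hom d f p q : ℝ)| := by
  obtain ⟨e, rfl⟩ : ∃ e, d = e + 2 := ⟨d - 2, by omega⟩
  rw [Nat.add_sub_cancel] at *
  have hpH : |(p : ℝ)| ≤ H := hH ▸ le_max_left _ _
  have hqH : |(q : ℝ)| ≤ H := hH ▸ le_max_right _ _
  have hH0 : 0 < H := by linarith
  have hE0 : 0 < E := by linarith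
  have hw : |((q * p' - p * q' : ℤ) : ℝ)| ≤ 2 * E * H ^ 2 := by
    push_cast
    refine (abs_sub _ _).trans ?_
    rw [abs_mul, abs_mul]
    have e1 : |(q : ℝ)| * |(p' : ℝ)| ≤ H * (E * H) :=
      mul_le_mul hqH (h1.trans (mul_le_mul_of_nonneg_left hpH hE0.le)) (abs_nonneg _) hH0.le
    have e2 : |(p : ℝ)| * |(q' : ℝ)| ≤ H * (E * H) :=
      mul_le_mul hpH (h2.trans (mul_le_mul_of_nonneg_left hqH hE0.le)) (abs_nonneg _) hH0.le
    nlinarith
  obtain ⟨G, hGd⟩ : ∃ G : ℝ, G = |(hom (e + 2) f p q : ℝ)| := ⟨_, rfl⟩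
  have hG0 : 0 ≤ G := by rw [hGd]; exact abs_nonneg _
  obtain ⟨w, hwd⟩ : ∃ w : ℝ, w = |((q * p' - p * q' : ℤ) : ℝ)| := ⟨_, rfl⟩
  have hw0 : 0 ≤ w := by rw [hwd]; exact abs_nonneg _
  rw [← hwd] at hw ⊢
  rw [← hGd]
  obtain ⟨T, hT⟩ : ∃ T : ℝ, T = 2 * ((e + 2 : ℕ) : ℝ) * E := ⟨_, rfl⟩
  have hT1 : 1 ≤ T := by
    rw [hT]
    push_cast
    have : (0 : ℝ) ≤ e := by positivity
    nlinarith
  have hE2 : E ^ 2 ≤ E ^ (2 * (e + 2)) := pow_le_pow_right₀ hE (by omega)
  by_cases hc : |(p : ℝ)| ≤ T * |(q : ℝ)|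
  · -- the identity
    have hHq : H ≤ T * |(q : ℝ)| := by
      rw [hH]
      refine max_le hc ?_
      nlinarith [abs_nonneg (q : ℝ)]
    have hR1 : (1 : ℝ) ≤ |(R : ℝ)| := by exact_mod_cast Int.one_le_abs hR
    have hU := hom_abs e U p q E H hUE hpH hqH
    have hV := hom_abs (e + 2 - 1) V p q E H hVE hpH hqH
    have hXw' : |((homX (e + 2) f p q * (q * p' - p * q') : ℤ) : ℝ)| ≤ (e + 4) * E * H * G := by
      rw [hXw]
      push_cast
      refine (abs_sub _ _).trans ?_
      have e1 : |(2 : ℝ) * k * q * N * n'| ≤ 2 * E * H * G := by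
        have e3 : |(2 : ℝ) * k * q * N * n'| = 2 * |(q : ℝ)| * (|(k : ℝ)| * |(N : ℝ)| * |(n' : ℝ)|) := by
          rw [abs_mul, abs_mul, abs_mul, abs_mul, abs_of_pos (by norm_num : (0 : ℝ) < 2)]
          ring
        have e4 : |(k : ℝ)| * |(N : ℝ)| * |(n' : ℝ)| ≤ E * G := by
          rw [hGd, hG]
          push_cast
          rw [abs_mul, abs_pow]
          calc |(k : ℝ)| * |(N : ℝ)| * |(n' : ℝ)| ≤ |(k : ℝ)| * |(N : ℝ)| * (E * |(N : ℝ)|) :=
                mul_le_mul_of_nonneg_left h3 (by positivity)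
            _ = E * (|(k : ℝ)| * |(N : ℝ)| ^ 2) := by ring
        rw [e3]
        calc 2 * |(q : ℝ)| * (|(k : ℝ)| * |(N : ℝ)| * |(n' : ℝ)|) ≤ 2 * H * (E * G) :=
              mul_le_mul (by linarith) e4 (by positivity) (by positivity)
          _ = 2 * E * H * G := by ring
      have e2 : |((e : ℝ) + 2) * (hom (e + 2) f p q : ℝ) * q'| ≤ (e + 2) * E * H * G := by
        rw [abs_mul, abs_mul, ← hGd, abs_of_nonneg (by positivity : (0 : ℝ) ≤ (e : ℝ) + 2)]
        calc ((e : ℝ) + 2) * G * |(q' : ℝ)| ≤ (e + 2) * G * (E * H) :=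
              mul_le_mul_of_nonneg_left (h2.trans (mul_le_mul_of_nonneg_left hqH hE0.le))
                (by positivity)
          _ = _ := by ring
      linarith
    have hid2 : (R : ℝ) * (q : ℝ) ^ (2 * (e + 2) - 2) * ((q * p' - p * q' : ℤ) : ℝ) =
        (hom (e + 2) f p q : ℝ) * ((q * p' - p * q' : ℤ) : ℝ) * (hom e U p q : ℝ) +
        ((homX (e + 2) f p q * (q * p' - p * q') : ℤ) : ℝ) * (hom (e + 2 - 1) V p q : ℝ) := by
      have := congrArg (fun z : ℤ => (z : ℝ) * ((q * p' - p * q' : ℤ) : ℝ)) hid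
      push_cast at this ⊢
      rw [← this]
      ring
    have h4 : w * |(q : ℝ)| ^ (2 * (e + 2) - 2) ≤ E ^ 2 * (e + 4) ^ 2 * H ^ (e + 2) * G := by
      calc w * |(q : ℝ)| ^ (2 * (e + 2) - 2) ≤ |(R : ℝ)| * (w * |(q : ℝ)| ^ (2 * (e + 2) - 2)) := by
            nlinarith [(by positivity : (0 : ℝ) ≤ w * |(q : ℝ)| ^ (2 * (e + 2) - 2))]
        _ = |(R : ℝ) * (q : ℝ) ^ (2 * (e + 2) - 2) * ((q * p' - p * q' : ℤ) : ℝ)| := by
            rw [abs_mul, abs_mul, abs_pow, ← hwd]
            ring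
        _ ≤ G * w * |(hom e U p q : ℝ)| + (e + 4) * E * H * G * |(hom (e + 2 - 1) V p q : ℝ)| := by
            rw [hid2]
            refine (abs_add_le _ _).trans ?_
            rw [abs_mul, abs_mul, abs_mul, ← hwd, ← hGd]
            gcongr
        _ ≤ G * (2 * E * H ^ 2) * (((e : ℕ) + 1) * E * H ^ e) +
            (e + 4) * E * H * G * ((((e + 2 - 1 : ℕ) : ℝ) + 1) * E * H ^ (e + 2 - 1)) := by
            gcongr
        _ ≤ _ := by
            have e5 : H ^ (e + 2) = H ^ 2 * H ^ e := by rw [pow_add]; ring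
            have e6 : H ^ (e + 2) = H * H ^ (e + 2 - 1) := by
              rw [← pow_succ']
              congr 1
            have e7 : ((e + 2 - 1 : ℕ) : ℝ) = e + 1 := by
              rw [show e + 2 - 1 = e + 1 from rfl]
              push_cast
              ring
            have e8 : G * (2 * E * H ^ 2) * (((e : ℕ) + 1) * E * H ^ e) +
              (e + 4) * E * H * G * ((((e + 2 - 1 : ℕ) : ℝ) + 1) * E * H ^ (e + 2 - 1)) =
              E ^ 2 * (2 * (e + 1) + (e + 4) * (e + 2)) * H ^ (e + 2) * G := by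
              rw [e7]
              calc _ = E ^ 2 * (2 * (e + 1)) * (H ^ 2 * H ^ e) * G +
                    E ^ 2 * ((e + 4) * (e + 1 + 1)) * (H * H ^ (e + 2 - 1)) * G := by ring
                _ = _ := by rw [← e5, ← e6]; ring
            rw [e8]
            have e9 : (0 : ℝ) ≤ e := by positivity
            gcongr
            nlinarith
    have h5 : w * H ^ (2 * (e + 2) - 2) ≤
        T ^ (2 * (e + 2) - 2) * (E ^ 2 * (e + 4) ^ 2 * H ^ (e + 2) * G) := by
      calc w * H ^ (2 * (e + 2) - 2) ≤ w * (T * |(q : ℝ)|) ^ (2 * (e + 2) - 2) := by gcongr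
        _ = T ^ (2 * (e + 2) - 2) * (w * |(q : ℝ)| ^ (2 * (e + 2) - 2)) := by
            rw [mul_pow]; ring
        _ ≤ _ := by gcongr
    have h6 : H ^ (2 * (e + 2) - 2) = H ^ e * H ^ (e + 2) := by
      rw [← pow_add]
      congr 1
      omega
    have h7 : w * H ^ e * H ^ (e + 2) ≤
        (T ^ (2 * (e + 2) - 2) * E ^ 2 * (e + 4) ^ 2 * G) * H ^ (e + 2) := by
      calc w * H ^ e * H ^ (e + 2) = w * H ^ (2 * (e + 2) - 2) := by rw [h6]; ring
        _ ≤ _ := h5
        _ = _ := by ring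
    have h8 := le_of_mul_le_mul_right h7 (by positivity)
    refine h8.trans (le_of_eq ?_)
    have h9 : E ^ (2 * (e + 2)) = E ^ (2 * (e + 2) - 2) * E ^ 2 := by
      rw [← pow_add]
      congr 1
    rw [hT, h9, mul_pow]
    push_cast
    ring
  · -- `q` is small
    push Not at hc
    have hHp : H = |(p : ℝ)| := by
      rw [hH]
      refine max_eq_left ?_
      nlinarith [abs_nonneg (q : ℝ)]
    have hb : (1 : ℝ) ≤ |(f.coeff (e + 1 + 1) : ℝ)| := by
      have : f.coeff (e + 1 + 1) ≠ 0 := by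
        have h0 : f.leadingCoeff ≠ 0 := by
          intro h0
          rw [leadingCoeff_eq_zero] at h0
          rw [h0] at hf
          simp at hf
        rw [leadingCoeff, hf] at h0
        exact h0
      exact_mod_cast Int.one_le_abs this
    have hs := sum_abs (e + 1) f p q E H hfE hpH hqH
    have hGs : G = |(f.coeff (e + 1 + 1) : ℝ) * (p : ℝ) ^ (e + 1 + 1) + (q : ℝ) *
        ((∑ i ∈ range (e + 1 + 1), f.coeff i * p ^ i * q ^ (e + 1 - i) : ℤ) : ℝ)| := by
      rw [hGd, hom_split (e + 1)]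
      push_cast
      rfl
    have h4 : H ^ (e + 2) ≤ 2 * G := by
      have h5 : H ^ (e + 2) ≤ |(f.coeff (e + 1 + 1) : ℝ) * (p : ℝ) ^ (e + 1 + 1)| := by
        rw [abs_mul, abs_pow, ← hHp]
        nlinarith [(by positivity : 0 ≤ H ^ (e + 2))]
      have h6 : |(q : ℝ) * ((∑ i ∈ range (e + 1 + 1), f.coeff i * p ^ i * q ^ (e + 1 - i) : ℤ) : ℝ)|
          ≤ H ^ (e + 2) / 2 := by
        rw [abs_mul]
        have h7 : T * |(q : ℝ)| ≤ H := by rw [hHp]; exact hc.le
        calc |(q : ℝ)| * |((∑ i ∈ range (e + 1 + 1), f.coeff i * p ^ i * q ^ (e + 1 - i) : ℤ) : ℝ)|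
            ≤ |(q : ℝ)| * ((((e + 1 : ℕ) : ℝ) + 1) * E * H ^ (e + 1)) := by gcongr
          _ = T * |(q : ℝ)| * H ^ (e + 1) / 2 := by
              rw [hT]
              push_cast
              ring
          _ ≤ H * H ^ (e + 1) / 2 := by gcongr
          _ = _ := by rw [← pow_succ']
      have h8 : |(f.coeff (e + 1 + 1) : ℝ) * (p : ℝ) ^ (e + 1 + 1)| ≤ G +
          |(q : ℝ) * ((∑ i ∈ range (e + 1 + 1), f.coeff i * p ^ i * q ^ (e + 1 - i) : ℤ) : ℝ)| := by
        rw [hGs]
        have := abs_sub_abs_le_abs_sub ((f.coeff (e + 1 + 1) : ℝ) * (p : ℝ) ^ (e + 1 + 1))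
          (-((q : ℝ) *
            ((∑ i ∈ range (e + 1 + 1), f.coeff i * p ^ i * q ^ (e + 1 - i) : ℤ) : ℝ)))
        rw [abs_neg, sub_neg_eq_add] at this
        linarith
      linarith
    calc w * H ^ e ≤ 2 * E * H ^ 2 * H ^ e := by gcongr
      _ = 2 * E * H ^ (e + 2) := by rw [pow_add H e 2]; ring
      _ ≤ 2 * E * (2 * G) := by gcongr
      _ = 4 * E * G := by ring
      _ ≤ _ := by
        have h9 : (4 : ℝ) ≤ (2 * ((e + 2 : ℕ) : ℝ)) ^ (2 * (e + 2) - 2) *
            (((e + 2 : ℕ) : ℝ) + 2) ^ 2 := by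
          have h10 : (1 : ℝ) ≤ (2 * ((e + 2 : ℕ) : ℝ)) ^ (2 * (e + 2) - 2) := by
            apply one_le_pow₀
            push_cast
            have : (0 : ℝ) ≤ e := by positivity
            linarith
          have h11 : (4 : ℝ) ≤ (((e + 2 : ℕ) : ℝ) + 2) ^ 2 := by
            push_cast
            have : (0 : ℝ) ≤ e := by positivity
            nlinarith
          nlinarith
        have h12 : E ≤ E ^ (2 * (e + 2)) := by
          calc E = E ^ 1 := (pow_one E).symm
            _ ≤ _ := pow_le_pow_right₀ hE (by omega)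
        gcongr

/-- a finite place -/
theorem fin_place (hAV : ST_AV) (S : Finset ℕ) (hS : ∀ l ∈ S, l.Prime) (l : ℕ) (hl : l ∈ S)
    (d : ℕ) (hd : 5 ≤ d) (f U V : ℤ[X]) (R k p q N p' q' n' : ℤ) (E : ℝ)
    (hf : f.natDegree = d) (hid : hom d f p q * hom (d - 2) U p q +
      homX d f p q * hom (d - 1) V p q = R * q ^ (2 * d - 2))
    (hR : R ≠ 0) (hE : 1 ≤ E) (hq : q ≠ 0) (hRE : |(R : ℝ)| ≤ E) (hcop : IsCoprime p q)
    (hfE : ∀ i, |(f.coeff i : ℝ)| ≤ E)
    (hG : hom d f p q = k * N ^ 2)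
    (hXw : homX d f p q * (q * p' - p * q') = 2 * k * q * N * n' - d * hom d f p q * q')
    (h1 : av (some l) (p' : ℚ) ≤ E * av (some l) (p : ℚ))
    (h2 : av (some l) (q' : ℚ) ≤ E * av (some l) (q : ℚ))
    (h3 : av (some l) (n' : ℚ) ≤ E * av (some l) (N : ℚ)) :
    av (some l) ((q * p' - p * q' : ℤ) : ℚ) ≤ E ^ (2 * d) * av (some l) (hom d f p q : ℚ) := by
  obtain ⟨a0, az, aS⟩ := hAV
  obtain ⟨pos, mul, -, um', int1, intlow, -, -, -⟩ := aS S hS
  have hv : some l ∈ plc S := by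
    unfold plc
    rw [Finset.some_mem_insertNone]
    exact hl
  obtain ⟨A, hA⟩ : ∃ A : ℤ → ℝ, A = fun z : ℤ => av (some l) (z : ℚ) := ⟨_, rfl⟩
  have A0 : ∀ z, 0 ≤ A z := fun z => by rw [hA]; exact a0 _ _
  have A1 : ∀ z, A z ≤ 1 := fun z => by rw [hA]; exact int1 l hl z
  have Apos : ∀ z, z ≠ 0 → 0 < A z := fun z hz => by
    rw [hA]
    exact pos _ hv _ (by exact_mod_cast hz)
  have Amul : ∀ y z, A (y * z) = A y * A z := fun y z => by
    rw [hA]
    show av (some l) ((y * z : ℤ) : ℚ) = _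
    push_cast
    exact mul _ hv _ _
  have Aum : ∀ y z, A (y + z) ≤ max (A y) (A z) := fun y z => by
    rw [hA]
    show av (some l) ((y + z : ℤ) : ℚ) ≤ _
    push_cast
    exact um' l hl _ _
  have Alow : ∀ z : ℤ, z ≠ 0 → |(z : ℝ)| ≤ E → 1 ≤ E * A z := fun z hz hzE => by
    have h4 := intlow l hl z hz
    have h5 : av (some l) (z : ℚ) * |(z : ℝ)| ≤ A z * E := by
      rw [hA]
      exact mul_le_mul_of_nonneg_left hzE (a0 _ _)
    linarith
  have A11 : A 1 = 1 := by
    have h4 := Amul 1 1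
    have h5 := Apos 1 one_ne_zero
    rw [mul_one] at h4
    have h6 : A 1 * A 1 = A 1 * 1 := by rw [mul_one]; exact h4.symm
    exact mul_left_cancel₀ h5.ne' h6
  have Aneg : ∀ z, A (-z) = A z := fun z => by
    have h4 := Amul (-1) (-1)
    have h5 := Apos (-1) (by norm_num)
    have h6 : A (-1) * A (-1) = 1 := by rw [← h4, ← A11]; norm_num
    have h7 : A (-1) = 1 := by nlinarith
    rw [← neg_one_mul, Amul, h7, one_mul]
  have Asub : ∀ y z, A (y - z) ≤ max (A y) (A z) := fun y z => by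
    rw [sub_eq_add_neg, ← Aneg z]
    exact Aum _ _
  have Apow : ∀ (z : ℤ) (n : ℕ), A (z ^ n) = A z ^ n := by
    intro z n
    induction n with
    | zero => rw [pow_zero, pow_zero, A11]
    | succ n ih => rw [pow_succ, pow_succ, Amul, ih]
  have h1' : A p' ≤ E * A p := by rw [hA]; exact h1
  have h2' : A q' ≤ E * A q := by rw [hA]; exact h2
  have h3' : A n' ≤ E * A N := by rw [hA]; exact h3
  suffices hgoal : A (q * p' - p * q') ≤ E ^ (2 * d) * A (hom d f p q) by
    rw [hA] at hgoal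
    exact hgoal
  have hE0 : 0 < E := by linarith
  have hEd : E ≤ E ^ (2 * d) := by
    calc E = E ^ 1 := (pow_one E).symm
      _ ≤ _ := pow_le_pow_right₀ hE (by omega)
  by_cases hc : 1 ≤ E * A q
  · -- the identity
    have hw : A (q * p' - p * q') ≤ E := by
      refine (A1 _).trans hE
    have hX : A (homX d f p q * (q * p' - p * q')) ≤ E * A (hom d f p q) := by
      rw [hXw]
      refine (Asub _ _).trans (max_le ?_ ?_)
      · have e1 : (2 : ℤ) * k * q * N * n' = 2 * q * (k * N * n') := by ring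
        have e2 : A (k * N * n') ≤ E * A (hom d f p q) := by
          rw [hG, Amul, Amul, Amul, Apow]
          calc A k * A N * A n' ≤ A k * A N * (E * A N) := by
                have := A0 k
                have := A0 N
                gcongr
            _ = _ := by ring
        rw [e1, Amul]
        calc A (2 * q) * A (k * N * n') ≤ 1 * (E * A (hom d f p q)) :=
              mul_le_mul (A1 _) e2 (A0 _) zero_le_one
          _ = _ := one_mul _
      · rw [Amul, Amul]
        have := A0 (hom d f p q)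
        calc A d * A (hom d f p q) * A q' ≤ 1 * A (hom d f p q) * 1 :=
              mul_le_mul (mul_le_mul_of_nonneg_right (A1 _) this) (A1 _) (A0 _) (by linarith)
          _ = A (hom d f p q) := by ring
          _ ≤ _ := by nlinarith
    have hid2 : R * q ^ (2 * d - 2) * (q * p' - p * q') =
        hom d f p q * ((q * p' - p * q') * hom (d - 2) U p q) +
        homX d f p q * (q * p' - p * q') * hom (d - 1) V p q := by
      rw [← hid]
      ring
    have h4 : A R * A q ^ (2 * d - 2) * A (q * p' - p * q') ≤ E * A (hom d f p q) := by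
      rw [← Apow, ← Amul, ← Amul, hid2]
      refine (Aum _ _).trans (max_le ?_ ?_)
      · rw [Amul]
        have h5 := A0 (hom d f p q)
        calc A (hom d f p q) * A ((q * p' - p * q') * hom (d - 2) U p q)
            ≤ A (hom d f p q) * 1 := mul_le_mul_of_nonneg_left (A1 _) h5
          _ ≤ _ := by nlinarith
      · rw [Amul]
        calc A (homX d f p q * (q * p' - p * q')) * A (hom (d - 1) V p q)
            ≤ A (homX d f p q * (q * p' - p * q')) * 1 :=
              mul_le_mul_of_nonneg_left (A1 _) (A0 _)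
          _ ≤ _ := by rw [mul_one]; exact hX
    have h5 : 1 ≤ E * A R := Alow R hR hRE
    have h6 : 1 ≤ (E * A q) ^ (2 * d - 2) := one_le_pow₀ hc
    calc A (q * p' - p * q') ≤ (E * A R) * (E * A q) ^ (2 * d - 2) * A (q * p' - p * q') := by
          have h7 : 1 ≤ (E * A R) * (E * A q) ^ (2 * d - 2) := one_le_mul_of_one_le_of_one_le h5 h6
          have h8 := A0 (q * p' - p * q')
          nlinarith
      _ = E * E ^ (2 * d - 2) * (A R * A q ^ (2 * d - 2) * A (q * p' - p * q')) := by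
          rw [mul_pow]; ring
      _ ≤ E * E ^ (2 * d - 2) * (E * A (hom d f p q)) := by gcongr
      _ = E ^ (2 * d) * A (hom d f p q) := by
          have h9 : E ^ (2 * d) = E ^ (2 * d - 2) * E ^ 2 := by
            rw [← pow_add]
            congr 1
            omega
          rw [h9]
          ring
  · -- `q` is divisible by a large power
    push Not at hc
    obtain ⟨e, rfl⟩ : ∃ e, d = e + 1 := ⟨d - 1, by omega⟩
    have hb0 : f.coeff (e + 1) ≠ 0 := by
      have h0 : f.leadingCoeff ≠ 0 := by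
        intro h0
        rw [leadingCoeff_eq_zero] at h0
        rw [h0] at hf
        simp at hf
      rw [leadingCoeff, hf] at h0
      exact h0
    have hb := Alow _ hb0 (hfE _)
    have hqb : A q < A (f.coeff (e + 1)) := by
      by_contra hcon
      push Not at hcon
      have : E * A (f.coeff (e + 1)) ≤ E * A q := mul_le_mul_of_nonneg_left hcon hE0.le
      linarith
    have hq1 : A q < 1 := lt_of_lt_of_le hqb (A1 _)
    have hp1 : 1 ≤ A p := by
      obtain ⟨a, b, hab⟩ := hcop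
      have h4 : (1 : ℝ) ≤ max (A (a * p)) (A (b * q)) := by
        rw [← A11, ← hab]
        exact Aum _ _
      rcases le_max_iff.1 h4 with h5 | h5
      · rw [Amul] at h5
        nlinarith [A1 a, A0 p, A0 a]
      · rw [Amul] at h5
        nlinarith [A1 b, A0 q, A0 b]
    have hp2 : A p = 1 := le_antisymm (A1 _) hp1
    have hGb : A (f.coeff (e + 1)) ≤ A (hom (e + 1) f p q) := by
      have h4 : f.coeff (e + 1) * p ^ (e + 1) = hom (e + 1) f p q -
          q * ∑ i ∈ range (e + 1), f.coeff i * p ^ i * q ^ (e - i) := by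
        rw [hom_split e]
        ring
      have h5 : A (f.coeff (e + 1) * p ^ (e + 1)) = A (f.coeff (e + 1)) := by
        rw [Amul, Apow, hp2, one_pow, mul_one]
      have h6 := Asub (hom (e + 1) f p q)
        (q * ∑ i ∈ range (e + 1), f.coeff i * p ^ i * q ^ (e - i))
      rw [← h4, h5] at h6
      rcases le_max_iff.1 h6 with h7 | h7
      · exact h7
      · exfalso
        rw [Amul] at h7
        have h8 : A q * A (∑ i ∈ range (e + 1), f.coeff i * p ^ i * q ^ (e - i)) ≤ A q * 1 :=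
          mul_le_mul_of_nonneg_left (A1 _) (A0 _)
        linarith
    calc A (q * p' - p * q') ≤ 1 := A1 _
      _ ≤ E * A (f.coeff (e + 1)) := hb
      _ ≤ E ^ (2 * (e + 1)) * A (hom (e + 1) f p q) :=
        mul_le_mul hEd hGb (A0 _) (by positivity)

theorem st_NUMH (hAV : ST_AV) : ST_NUMH := by
  intro d S hd hS
  refine ⟨((2 * d) ^ (2 * d - 2) * (d + 2) ^ 2) ^ 2 * (d + 1) + (4 * d * (S.card + 2) + 1), ?_⟩
  intro f U V R k p q N p' q' n' E H hf hU hV hid hR hk hq hN hcop hE hfE hUE hVE hRE hkE hH hG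
    hder hw0 h1 h2 h3
  have hid' := hom_ident d (by omega) f U V R p q hf hU hV hid hq
  have hXw : homX d f p q * (q * p' - p * q') = 2 * k * q * N * n' - d * hom d f p q * q' := by
    have h4 := euler d f p q
    linear_combination q * hder - q' * h4
  have hfE0 : ∀ i, |(f.coeff i : ℝ)| ≤ E := hfE
  have hE0 : 0 < E := by linarith
  have hq1 : (1 : ℝ) ≤ |(q : ℝ)| := by exact_mod_cast Int.one_le_abs hq
  have hH1 : 1 ≤ H := by rw [hH]; exact le_max_of_le_right hq1
  have hpH : |(p : ℝ)| ≤ H := hH ▸ le_max_left _ _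
  have hqH : |(q : ℝ)| ≤ H := hH ▸ le_max_right _ _
  have hG0 : hom d f p q ≠ 0 := by
    rw [hG]
    exact mul_ne_zero hk (pow_ne_zero _ hN)
  -- the leading coefficient
  obtain ⟨b, hbd⟩ : ∃ b, b = f.coeff d := ⟨_, rfl⟩
  have hb0 : b ≠ 0 := by
    have h0 : f.leadingCoeff ≠ 0 := by
      intro h0
      rw [leadingCoeff_eq_zero] at h0
      rw [h0] at hf
      simp at hf
      omega
    rw [leadingCoeff, hf] at h0
    rw [hbd]
    exact h0
  -- the products
  have hAV' := hAV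
  obtain ⟨a0, -, aS⟩ := hAV'
  obtain ⟨pos, mul, -, -, int1, -, prod1, -, -⟩ := aS S hS
  obtain ⟨P, hP⟩ : ∃ P : ℤ → ℝ, P = fun z : ℤ => ∏ v ∈ plc S, av v (z : ℚ) := ⟨_, rfl⟩
  have P0 : ∀ z, 0 ≤ P z := fun z => by rw [hP]; exact prod_nonneg fun v _ => a0 _ _
  have P1 : ∀ z, z ≠ 0 → 1 ≤ P z := fun z hz => by rw [hP]; exact prod1 z hz
  have Pmul : ∀ y z, P (y * z) = P y * P z := fun y z => by
    rw [hP]
    show ∏ v ∈ plc S, av v ((y * z : ℤ) : ℚ) = _
    rw [← prod_mul_distrib]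
    refine prod_congr rfl fun v hv => ?_
    push_cast
    exact mul v hv _ _
  have Psplit : ∀ g : Option ℕ → ℝ, ∏ v ∈ plc S, g v = g none * ∏ l ∈ S, g (some l) := fun g => by
    simp only [plc]
    exact Finset.prod_insertNone g S
  have Pnone : ∀ z : ℤ, av none (z : ℚ) = |(z : ℝ)| := fun z => by
    simp only [av, Rat.cast_intCast]
  have Ple : ∀ z, P z ≤ |(z : ℝ)| := fun z => by
    rw [hP]
    show ∏ v ∈ plc S, av v (z : ℚ) ≤ _
    rw [Psplit, Pnone]
    have h4 : ∏ l ∈ S, av (some l) (z : ℚ) ≤ 1 := prod_le_one (fun l _ => a0 _ _) fun l hl =>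
      int1 l hl z
    nlinarith [abs_nonneg (z : ℝ)]
  have Ppow : ∀ (z : ℤ) (n : ℕ), P z ≤ E → P (z ^ n) ≤ E ^ n := by
    intro z n hz
    induction n with
    | zero =>
      rw [pow_zero, pow_zero]
      exact (Ple 1).trans (by simp)
    | succ n ih =>
      rw [pow_succ, pow_succ, Pmul]
      exact mul_le_mul ih hz (P0 _) (by positivity)
  obtain ⟨C, hC⟩ : ∃ C : ℝ, C = (2 * d) ^ (2 * d - 2) * (d + 2) ^ 2 := ⟨_, rfl⟩
  have hC0 : 0 ≤ C := by rw [hC]; positivity
  -- (b)
  have hb : P (q * p' - p * q') * H ^ (d - 2) ≤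
      C * (E ^ (2 * d)) ^ (S.card + 1) * P (hom d f p q) := by
    have hre := real_place d hd f U V R k p q N p' q' n' E H hf hid' hR hE hfE hUE hVE hH hH1 hG
      hXw (by
        have := h1 none (by unfold plc; exact Finset.none_mem_insertNone)
        rwa [Pnone, Pnone] at this) (by
        have := h2 none (by unfold plc; exact Finset.none_mem_insertNone)
        rwa [Pnone, Pnone] at this) (by
        have := h3 none (by unfold plc; exact Finset.none_mem_insertNone)
        rwa [Pnone, Pnone] at this)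
    have hfi : ∀ l ∈ S, av (some l) ((q * p' - p * q' : ℤ) : ℚ) ≤
        E ^ (2 * d) * av (some l) (hom d f p q : ℚ) := by
      intro l hl
      have hv : some l ∈ plc S := by
        unfold plc
        rw [Finset.some_mem_insertNone]
        exact hl
      exact fin_place hAV S hS l hl d hd f U V R k p q N p' q' n' E hf hid' hR hE hq hRE hcop hfE
        hG hXw (h1 _ hv) (h2 _ hv) (h3 _ hv)
    have e1 : P (q * p' - p * q') = |((q * p' - p * q' : ℤ) : ℝ)| *
        ∏ l ∈ S, av (some l) ((q * p' - p * q' : ℤ) : ℚ) := by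
      rw [hP]
      show ∏ v ∈ plc S, av v ((q * p' - p * q' : ℤ) : ℚ) = _
      rw [Psplit, Pnone]
    have e2 : P (hom d f p q) = |((hom d f p q : ℤ) : ℝ)| *
        ∏ l ∈ S, av (some l) ((hom d f p q : ℤ) : ℚ) := by
      rw [hP]
      show ∏ v ∈ plc S, av v ((hom d f p q : ℤ) : ℚ) = _
      rw [Psplit, Pnone]
    have e3 : ∏ l ∈ S, av (some l) ((q * p' - p * q' : ℤ) : ℚ) ≤
        (E ^ (2 * d)) ^ S.card * ∏ l ∈ S, av (some l) ((hom d f p q : ℤ) : ℚ) := by
      rw [← Finset.prod_const, ← prod_mul_distrib]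
      exact prod_le_prod (fun l _ => a0 _ _) hfi
    have e4 : 0 ≤ ∏ l ∈ S, av (some l) ((q * p' - p * q' : ℤ) : ℚ) :=
      prod_nonneg fun l _ => a0 _ _
    rw [e1, e2]
    calc |((q * p' - p * q' : ℤ) : ℝ)| * (∏ l ∈ S, av (some l) ((q * p' - p * q' : ℤ) : ℚ)) *
          H ^ (d - 2) = (|((q * p' - p * q' : ℤ) : ℝ)| * H ^ (d - 2)) *
            ∏ l ∈ S, av (some l) ((q * p' - p * q' : ℤ) : ℚ) := by ring
      _ ≤ (((2 * d) ^ (2 * d - 2) * (d + 2) ^ 2) * E ^ (2 * d) * |(hom d f p q : ℝ)|) *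
          ((E ^ (2 * d)) ^ S.card * ∏ l ∈ S, av (some l) ((hom d f p q : ℤ) : ℚ)) :=
          mul_le_mul hre e3 e4 (by positivity)
      _ = _ := by
          rw [hC, pow_succ (E ^ (2 * d)) S.card]
          ring
  -- (a)
  have ha : P N ≤ E ^ (2 * d - 1) * P (q * p' - p * q') := by
    have hgcd : ∃ x y, b = x * N + y * q := by
      obtain ⟨e, rfl⟩ : ∃ e, d = e + 1 := ⟨d - 1, by omega⟩
      have hsp := hom_split e f p q
      obtain ⟨a, c, hac⟩ : IsCoprime (p ^ (e + 1)) q := hcop.pow_left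
      obtain ⟨Q, hQ⟩ : ∃ Q, Q = ∑ i ∈ range (e + 1), f.coeff i * p ^ i * q ^ (e - i) := ⟨_, rfl⟩
      rw [← hQ, ← hbd, hG] at hsp
      refine ⟨a * k * N, c * b - a * Q, ?_⟩
      linear_combination (-b) * hac + (-a) * hsp
    have hdvd : N ∣ R * (q * p' - p * q') * q ^ (2 * d - 2) := by
      have h4 : R * (q * p' - p * q') * q ^ (2 * d - 2) =
          N * (k * N * (q * p' - p * q') * hom (d - 2) U p q +
            (2 * k * q * n' - d * k * N * q') * hom (d - 1) V p q) := by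
        have h5 : R * (q * p' - p * q') * q ^ (2 * d - 2) =
            hom d f p q * (q * p' - p * q') * hom (d - 2) U p q +
            homX d f p q * (q * p' - p * q') * hom (d - 1) V p q := by
          rw [mul_right_comm, ← hid']
          ring
        rw [h5, hXw, hG]
        ring
      rw [h4]
      exact Dvd.intro _ rfl
    obtain ⟨M, hM⟩ := dvd_pow_of N q b hgcd (2 * d - 2) _ hdvd
    have hM0 : M ≠ 0 := by
      rintro rfl
      rw [mul_zero] at hM
      exact mul_ne_zero (mul_ne_zero hR hw0) (pow_ne_zero _ hb0) hM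
    have h4 : P N ≤ P N * P M := by nlinarith [P0 N, P1 M hM0]
    rw [← Pmul, ← hM, Pmul, Pmul] at h4
    have h5 : P R ≤ E := (Ple R).trans hRE
    have h6 : P (b ^ (2 * d - 2)) ≤ E ^ (2 * d - 2) := Ppow _ _ ((Ple b).trans (by
      rw [hbd]; exact hfE d))
    have h7 : E ^ (2 * d - 1) = E * E ^ (2 * d - 2) := by
      rw [← pow_succ']
      congr 1
      omega
    calc P N ≤ P R * P (q * p' - p * q') * P (b ^ (2 * d - 2)) := h4
      _ ≤ E * P (q * p' - p * q') * E ^ (2 * d - 2) := by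
          have := P0 (q * p' - p * q')
          have := P0 (b ^ (2 * d - 2))
          gcongr
      _ = _ := by rw [h7]; ring
  have hN1 : 1 ≤ P N := P1 N hN
  have hk1 : 1 ≤ P k := P1 k hk
  have hPG : P (hom d f p q) = P k * P N ^ 2 := by
    rw [hG, Pmul, sq, Pmul, sq]
  have hc : P (hom d f p q) ≤ E * P N ^ 2 := by
    rw [hPG]
    exact mul_le_mul_of_nonneg_right ((Ple k).trans hkE) (by positivity)
  have hd' : P N ^ 2 ≤ (d + 1) * E * H ^ d := by
    calc P N ^ 2 ≤ P k * P N ^ 2 := by nlinarith [sq_nonneg (P N)]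
      _ = P (hom d f p q) := hPG.symm
      _ ≤ |(hom d f p q : ℝ)| := Ple _
      _ ≤ _ := hom_abs d f p q E H hfE hpH hqH
  have hmain : H ^ (d - 2) ≤ C * E ^ (2 * d * (S.card + 2)) * P N := by
    have h4 : P N * H ^ (d - 2) ≤ P N * (C * E ^ (2 * d * (S.card + 2)) * P N) := by
      calc P N * H ^ (d - 2) ≤ E ^ (2 * d - 1) * P (q * p' - p * q') * H ^ (d - 2) := by gcongr
        _ = E ^ (2 * d - 1) * (P (q * p' - p * q') * H ^ (d - 2)) := by ring
        _ ≤ E ^ (2 * d - 1) * (C * (E ^ (2 * d)) ^ (S.card + 1) * P (hom d f p q)) := by gcongr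
        _ ≤ E ^ (2 * d - 1) * (C * (E ^ (2 * d)) ^ (S.card + 1) * (E * P N ^ 2)) := by gcongr
        _ = P N * (C * (E ^ (2 * d - 1) * E * (E ^ (2 * d)) ^ (S.card + 1)) * P N) := by ring
        _ = _ := by
            have h5 : E ^ (2 * d * (S.card + 2)) =
                E ^ (2 * d - 1) * E * (E ^ (2 * d)) ^ (S.card + 1) := by
              rw [← pow_succ, ← pow_mul, ← pow_add]
              congr 1
              have h6 : 2 * d - 1 + 1 = 2 * d := by omega
              rw [h6]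
              ring
            rw [h5]
    exact le_of_mul_le_mul_left h4 (by linarith)
  have hfin : H ^ (d - 4) ≤ C ^ 2 * (d + 1) * E ^ (4 * d * (S.card + 2) + 1) := by
    have h4 : H ^ (d - 4) * H ^ d ≤ C ^ 2 * (d + 1) * E ^ (4 * d * (S.card + 2) + 1) * H ^ d := by
      calc H ^ (d - 4) * H ^ d = (H ^ (d - 2)) ^ 2 := by
            rw [← pow_add, ← pow_mul]
            congr 1
            omega
        _ ≤ (C * E ^ (2 * d * (S.card + 2)) * P N) ^ 2 := by
            have : 0 ≤ H := by linarith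
            gcongr
        _ = C ^ 2 * (E ^ (2 * d * (S.card + 2))) ^ 2 * P N ^ 2 := by ring
        _ ≤ C ^ 2 * (E ^ (2 * d * (S.card + 2))) ^ 2 * ((d + 1) * E * H ^ d) := by gcongr
        _ = _ := by
            rw [← pow_mul, pow_succ E (4 * d * (S.card + 2))]
            have h5 : 2 * d * (S.card + 2) * 2 = 4 * d * (S.card + 2) := by ring
            rw [h5]
            ring
    exact le_of_mul_le_mul_right h4 (by positivity)
  refine hfin.trans ?_
  have hk2 : C ^ 2 * (d + 1) ≤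
      ((((2 * d) ^ (2 * d - 2) * (d + 2) ^ 2) ^ 2 * (d + 1) +
        (4 * d * (S.card + 2) + 1) : ℕ) : ℝ) := by
    rw [hC]
    push_cast
    have : (0 : ℝ) ≤ 4 * d * (S.card + 2) + 1 := by positivity
    linarith
  refine mul_le_mul hk2 (pow_le_pow_right₀ hE (by omega)) (by positivity) (by positivity)

end Pool.Agent.Helper73.MT
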